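import Pool.Agent.Lib.MP_0ea5e1_co.Count
import Pool.Agent.Lib.MP_0ea5e1_co.Conn
import Pool.Agent.Lib.MP_0ea5e1_co.Planar2

/-!
# MP_0ea5e1_co: `fix_C(n) = O(n^(1/2))` for cubic 3-connected planar graphs

The witness graphs are the helical tubes `tube n`: a path `0, ..., n - 1`, the rungs
`{i, i + 5}` for `i` even, and two cap vertices. In every plane straight-line drawing each
hexagon `i, ..., i + 5` separates the vertices below from those above, so a line changes sides
at most six times; a block order of the vertices on a line then gives the bound.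
-/

namespace Pool.Agent.Results.MP_0ea5e1_co.FixCubicSqrt

open Pool.Agent.Lib.MP_0ea5e1_co

/-- There is a constant `C` such that for every even `n ≥ 18` some cubic 3-connected planar
graph `G` on `n` vertices has `fix(G) ≤ C √n`; in particular `fix_C(n) ≤ C √n`. -/
theorem result : ∃ C : ℝ, ∀ n : ℕ, Even n → 18 ≤ n →
    (∃ G : SimpleGraph (Fin n), InClass G ∧ (fixNum G : ℝ) ≤ C * Real.sqrt n) ∧
    (fixC n : ℝ) ≤ C * Real.sqrt n := by
  refine ⟨30, ?_⟩
  intro N hN hN18
  obtain ⟨n, rfl⟩ : ∃ n, N = n + 2 := ⟨N - 2, by omega⟩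
  have hn : n % 2 = 0 := by
    have := Nat.even_iff.mp hN
    omega
  have hclass : InClass (tube n) := by
    refine ⟨tube_cubic hn (by omega), ⟨by simp; omega, tube_conn hn (by omega)⟩,
      ⟨_, tube_planar (by omega)⟩⟩
  have hfix : (fixNum (tube n) : ℝ) ≤ 30 * Real.sqrt ((n + 2 : ℕ) : ℝ) := by
    have h1 := fix_tube_sqrt (n := n) (by omega)
    have h2 : Real.sqrt (n : ℝ) ≤ Real.sqrt ((n + 2 : ℕ) : ℝ) := by
      apply Real.sqrt_le_sqrt
      push_cast
      linarith
    linarith
  refine ⟨⟨tube n, hclass, hfix⟩, ?_⟩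
  have h3 : fixC (n + 2) ≤ fixNum (tube n) := Nat.sInf_le ⟨tube n, hclass, rfl⟩
  have h4 : (fixC (n + 2) : ℝ) ≤ (fixNum (tube n) : ℝ) := by exact_mod_cast h3
  linarith

end Pool.Agent.Results.MP_0ea5e1_co.FixCubicSqrt
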